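import Mathlib
import Pool.Agent.H.MP_47966f_an.C

set_option autoImplicit false
open MeasureTheory Filter Topology
open scoped BoundedContinuousFunction ENNReal

namespace Pool.Agent.Results.MP_47966f_an.Yes

noncomputable def nu (N : ℕ → ℕ) (k : ℕ) : Measure ℝ :=
  (N k : ℝ≥0∞)⁻¹ • ∑ j ∈ Finset.range (N k),
    Measure.dirac ((j : ℝ) / ∏ i ∈ Finset.range (k + 1), (N i : ℝ))

noncomputable def part (N : ℕ → ℕ) (r : ℕ) : ℕ → Measure ℝ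
  | 0 => Measure.dirac 0
  | n + 1 => (part N r n).conv (nu N (2 * n + r))

def WeakLim (ρ : ℕ → Measure ℝ) (μ : Measure ℝ) : Prop :=
  ∀ f : ℝ →ᵇ ℝ, Tendsto (fun n => ∫ x, f x ∂ρ n) atTop (𝓝 (∫ x, f x ∂μ))

def Spectrum (μ : Measure ℝ) (Λ : Set ℝ) : Prop :=
  Λ.Countable ∧ ∃ v : Λ → Lp ℂ 2 μ,
    (∀ l : Λ, v l =ᵐ[μ] fun x : ℝ => Complex.exp (2 * Real.pi * Complex.I * (l : ℝ) * x)) ∧
    Orthonormal ℂ v ∧ (Submodule.span ℂ (Set.range v)).topologicalClosure = ⊤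

open Pool.Agent.H.MP_47966f_an in
theorem result (N : ℕ → ℕ) (hN : ∀ k, 2 ≤ N k) (μ ν : Measure ℝ) [IsProbabilityMeasure μ]
    [IsProbabilityMeasure ν] (hμ : WeakLim (part N 0) μ) (hν : WeakLim (part N 1) ν)
    (A : Set ℝ) (hA : Spectrum μ A) :
    ∃ B : Set ℝ, Spectrum ν B ∧ (∀ a ∈ A, ∀ b ∈ B, ∃ n : ℤ, a + b = n) ∧
      ∀ n : ℤ, ∃! p : ℝ × ℝ, p.1 ∈ A ∧ p.2 ∈ B ∧ p.1 + p.2 = n := by
  have e : ∀ r, part N r = pc N r := fun r => funext fun n => by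
    induction n with
    | zero => rfl
    | succ n ih => unfold part pc; rw [ih]; rfl
  obtain ⟨-, v, h1, h2, h3⟩ := hA
  have : v = fun l : A => ev μ l := funext fun l => Lp.ext ((h1 l).trans (ev_ae' μ l).symm)
  subst this
  rw [e] at hμ hν
  obtain ⟨B, b1, b2, b3, b4⟩ := main μ hN ν (lim_ch μ hN 0 hμ) (lim_ch ν hN 1 hν) h2 h3
  exact ⟨B, ⟨b1, _, fun l => ev_ae' ν l, b2, b3⟩, b4⟩

end Pool.Agent.Results.MP_47966f_an.Yes
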